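import Pool.Agent.Y748.SR.Stm2

/-!
Project SR (owner helper748), job SR-GAPX: empty intervals and gaps.
-/

open Finset Filter Topology MeasureTheory

set_option autoImplicit false

namespace Pool.Agent.Y884.SR

open Pool.Agent.Y748.SR

variable {u : ℕ → ℝ}

theorem mono' (hu : Sq u) {m n : ℕ} (hm : 1 ≤ m) (hmn : m ≤ n) : u m ≤ u n := by
  induction n, hmn using Nat.le_induction with
  | base => exact le_rfl
  | succ n hn ih => exact ih.trans (hu.mono n (by omega))

/-- the sums -/
noncomputable def SS (u : ℕ → ℝ) (s : ℝ) (K : ℕ) : ℝ :=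
  ∑ n ∈ Finset.Icc 1 K, max (u (n + 1) - u n - s) 0

theorem SS_diff (hu : Sq u) {s : ℝ} (hs : 0 ≤ s) {K K' : ℕ} (h : K ≤ K') :
    SS u s K ≤ SS u s K' ∧ SS u s K' - SS u s K ≤ u (K' + 1) - u (K + 1) := by
  induction K', h using Nat.le_induction with
  | base => exact ⟨le_rfl, by simp⟩
  | succ n hn ih =>
    have h1 : SS u s (n + 1) = SS u s n + max (u (n + 1 + 1) - u (n + 1) - s) 0 := by
      unfold SS
      rw [Finset.sum_Icc_succ_top (by omega)]
    have h2 : 0 ≤ max (u (n + 1 + 1) - u (n + 1) - s) 0 := le_max_right _ _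
    have h3 : max (u (n + 1 + 1) - u (n + 1) - s) 0 ≤ u (n + 1 + 1) - u (n + 1) := by
      have h4 := hu.mono (n + 1) (by omega)
      exact max_le (by linarith) (by linarith)
    rw [h1]
    constructor
    · linarith [ih.1]
    · linarith [ih.2]

/-- the pieces -/
def AA (u : ℕ → ℝ) (s : ℝ) (n : ℕ) : Set ℝ := Set.Ioo (u n) (u (n + 1) - s)

theorem vol_AA (s : ℝ) (n : ℕ) : volume.real (AA u s n) = max (u (n + 1) - u n - s) 0 := by
  unfold AA
  rw [Real.volume_real_Ioo]
  congr 1
  ring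

theorem hole_fin (s : ℝ) (N : ℕ) : volume (hole u s N) ≠ ⊤ := by
  have h1 : hole u s N ⊆ Set.Icc 0 (N : ℝ) := fun x hx => ⟨hx.1, hx.2.1⟩
  exact (lt_of_le_of_lt (measure_mono h1) (by rw [Real.volume_Icc]; exact ENNReal.ofReal_lt_top)).ne

theorem upper (hu : Sq u) {s : ℝ} (hs : 0 ≤ s) (N M : ℕ) (hM : 1 ≤ M) (h : (N : ℝ) < u (M + 1)) :
    volume.real (hole u s N) ≤ u 1 + SS u s M := by
  classical
  have hsub : hole u s N ⊆ Set.Icc 0 (u 1) ∪ ⋃ n ∈ Finset.Icc 1 M, AA u s n := by
    intro x hx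
    obtain ⟨hx0, hxN, hxn⟩ := hx
    rcases le_or_gt x (u 1) with h1 | h1
    · exact Or.inl ⟨hx0, h1⟩
    · right
      have hex : ∃ m : ℕ, 1 ≤ m ∧ x < u (m + 1) := ⟨M, hM, lt_of_le_of_lt hxN h⟩
      obtain ⟨h2, h3⟩ := Nat.find_spec hex
      set n := Nat.find hex with hn
      have h4 : n ≤ M := Nat.find_min' hex ⟨hM, lt_of_le_of_lt hxN h⟩
      have h5 : u n ≤ x := by
        rcases Nat.eq_or_lt_of_le h2 with h6 | h6
        · rw [← h6]
          exact h1.le
        · have h7 := Nat.find_min hex (m := n - 1) (by omega)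
          by_contra hc
          apply h7
          refine ⟨by omega, ?_⟩
          have h8 : n - 1 + 1 = n := by omega
          rw [h8]
          exact not_le.1 hc
      have h6 := hxn n h2
      have h7 := hxn (n + 1) (by omega)
      rw [Set.mem_iUnion₂]
      refine ⟨n, Finset.mem_Icc.2 ⟨h2, h4⟩, ?_, ?_⟩
      · rcases h5.lt_or_eq with h8 | h8
        · exact h8
        · exfalso
          apply h6
          rw [h8]
          exact ⟨le_rfl, by linarith⟩
      · by_contra hc
        apply h7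
        exact ⟨h3.le, by linarith [not_lt.1 hc]⟩
  have hfin : volume (Set.Icc 0 (u 1) ∪ ⋃ n ∈ Finset.Icc 1 M, AA u s n) ≠ ⊤ := by
    refine (measure_union_lt_top (by rw [Real.volume_Icc]; exact ENNReal.ofReal_lt_top) ?_).ne
    refine measure_biUnion_lt_top (Finset.finite_toSet _) fun n _ => ?_
    unfold AA
    rw [Real.volume_Ioo]
    exact ENNReal.ofReal_lt_top
  calc volume.real (hole u s N)
      ≤ volume.real (Set.Icc 0 (u 1) ∪ ⋃ n ∈ Finset.Icc 1 M, AA u s n) :=
        measureReal_mono hsub hfin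
    _ ≤ volume.real (Set.Icc 0 (u 1)) + volume.real (⋃ n ∈ Finset.Icc 1 M, AA u s n) :=
        measureReal_union_le _ _
    _ ≤ u 1 + SS u s M := by
        refine add_le_add ?_ ?_
        · rw [Real.volume_real_Icc]
          rw [sub_zero]
          exact max_le le_rfl hu.pos.le
        · refine (measureReal_biUnion_finset_le _ _).trans (le_of_eq ?_)
          unfold SS
          exact Finset.sum_congr rfl fun n _ => vol_AA s n

theorem lower (hu : Sq u) {s : ℝ} (hs : 0 ≤ s) (N L : ℕ) (h : u (L + 1) ≤ (N : ℝ)) :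
    SS u s L ≤ volume.real (hole u s N) := by
  classical
  have hsub : (⋃ n ∈ Finset.Icc 1 L, AA u s n) ⊆ hole u s N := by
    intro x hx
    rw [Set.mem_iUnion₂] at hx
    obtain ⟨n, hn, h1, h2⟩ := hx
    rw [Finset.mem_Icc] at hn
    have h3 : u 1 ≤ u n := mono' hu le_rfl hn.1
    have h4 : u (n + 1) ≤ u (L + 1) := mono' hu (by omega) (by omega)
    refine ⟨by linarith [hu.pos], by linarith, fun m hm hmem => ?_⟩
    rcases le_or_gt m n with h5 | h5
    · have h6 := mono' hu hm h5
      linarith [hmem.1]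
    · have h6 : u (n + 1) ≤ u m := mono' hu (by omega) (by omega)
      linarith [hmem.2]
  have hdis : Set.PairwiseDisjoint (↑(Finset.Icc 1 L)) (AA u s) := by
    have key : ∀ m n : ℕ, 1 ≤ m → m < n → Disjoint (AA u s m) (AA u s n) := by
      intro m n hm hmn
      rw [Set.disjoint_left]
      intro x hx hx'
      have h6 : u (m + 1) ≤ u n := mono' hu (by omega) (by omega)
      have h7 := hx.2
      have h8 := hx'.1
      linarith
    intro m hm n hn hne
    rw [Finset.mem_coe, Finset.mem_Icc] at hm hn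
    rcases lt_or_gt_of_ne hne with h5 | h5
    · exact key m n hm.1 h5
    · exact (key n m hn.1 h5).symm
  have h1 : volume.real (⋃ n ∈ Finset.Icc 1 L, AA u s n) = SS u s L := by
    rw [measureReal_biUnion_finset hdis (fun n _ => measurableSet_Ioo)
      (fun n _ => by unfold AA; rw [Real.volume_Ioo]; exact ENNReal.ofReal_ne_top)]
    unfold SS
    exact Finset.sum_congr rfl fun n _ => vol_AA s n
  rw [← h1]
  exact measureReal_mono hsub (hole_fin s N)

theorem t_GAPX : Pool.Agent.Y748.SR.S_GAPX := by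
  intro u hu s hs
  rw [Metric.tendsto_atTop]
  intro ε hε
  obtain ⟨η, hη0, hη1, hηε⟩ : ∃ η : ℝ, 0 < η ∧ η ≤ 1 / 8 ∧ 8 * η < ε :=
    ⟨min (ε / 16) (1 / 8), lt_min (by positivity) (by norm_num), min_le_right _ _, by
      have := min_le_left (ε / 16) (1 / 8 : ℝ)
      linarith⟩
  have hlim := (Metric.tendsto_atTop.1 hu.lim) η hη0
  obtain ⟨N₀, hN₀⟩ := hlim
  have hlin : ∀ n : ℕ, N₀ ≤ n → 1 ≤ n → (1 - η) * n ≤ u n ∧ u n ≤ (1 + η) * n := by
    intro n hn hn1
    have h1 := hN₀ n hn
    rw [Real.dist_eq, abs_lt] at h1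
    have hn0 : (0 : ℝ) < n := by exact_mod_cast hn1
    have h2 : u n / n * n = u n := div_mul_cancel₀ _ hn0.ne'
    constructor
    · rw [← h2]
      nlinarith
    · rw [← h2]
      nlinarith
  obtain ⟨N₁, hN₁⟩ := exists_nat_gt ((3 + u 1) / η + 2 * N₀ + 2)
  refine ⟨N₁ + 1, fun N hN => ?_⟩
  have hNr : (3 + u 1) / η + 2 * N₀ + 2 < N := by
    refine hN₁.trans ?_
    exact_mod_cast Nat.lt_of_succ_le hN
  have hN0 : (0 : ℝ) < N := by
    have h1 : 0 ≤ (3 + u 1) / η := by
      have := hu.pos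
      positivity
    have h2 : (0 : ℝ) ≤ N₀ := by positivity
    linarith
  have hNη : 3 + u 1 < η * N := by
    have h2 : (0 : ℝ) ≤ N₀ := by positivity
    have h1 : (3 + u 1) / η < N := by linarith
    rw [div_lt_iff₀ hη0] at h1
    linarith
  have hN2 : (2 : ℝ) * N₀ + 2 < N := by
    have h1 : 0 ≤ (3 + u 1) / η := by
      have := hu.pos
      positivity
    linarith
  have hu1 := hu.pos
  set D : ℕ := ⌈4 * η * N⌉₊ with hD
  have hD1 : 4 * η * N ≤ D := Nat.le_ceil _
  have hD2 : (D : ℝ) < 4 * η * N + 1 := Nat.ceil_lt_add_one (by positivity)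
  have hDN : D + N₀ ≤ N := by
    have h1 : (D : ℝ) + N₀ < N + 1 := by nlinarith
    exact_mod_cast Nat.lt_succ_iff.1 (by exact_mod_cast h1)
  set M : ℕ := N + D with hM
  set L : ℕ := N - D with hL
  have hLr : (L : ℝ) = N - D := by
    rw [hL, Nat.cast_sub (by omega)]
  have hMr : (M : ℝ) = N + D := by
    rw [hM, Nat.cast_add]
  have hN1 : 1 ≤ N := by exact_mod_cast hN0
  have b1 := hlin (M + 1) (by omega) (by omega)
  have b2 := hlin (N + 1) (by omega) (by omega)
  have b3 := hlin (L + 1) (by omega) (by omega)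
  push_cast at b1 b2 b3
  rw [hMr] at b1
  rw [hLr] at b3
  have c1 : (N : ℝ) < u (M + 1) := by nlinarith
  have c2 : u (L + 1) ≤ (N : ℝ) := by nlinarith
  have d1 := upper hu hs N M (by omega) c1
  have d2 := lower hu hs N L c2
  have d3 := (SS_diff hu hs (show N ≤ M by omega)).2
  have d4 := (SS_diff hu hs (show L ≤ N by omega)).2
  have e1 : volume.real (hole u s N) - SS u s N ≤ 8 * η * N := by nlinarith
  have e2 : SS u s N - volume.real (hole u s N) ≤ 8 * η * N := by nlinarith
  have e3 : (1 / N : ℝ) * (∑ n ∈ Finset.Icc 1 N, max (u (n + 1) - u n - s) 0) -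
      (1 / N : ℝ) * (volume (hole u s N)).toReal =
      (SS u s N - volume.real (hole u s N)) / N := by
    unfold SS Measure.real
    ring
  rw [e3, dist_zero_right, Real.norm_eq_abs, abs_div, abs_of_pos hN0, div_lt_iff₀ hN0]
  have e4 : |SS u s N - volume.real (hole u s N)| ≤ 8 * η * N := by
    rw [abs_le]
    constructor <;> linarith
  nlinarith

end Pool.Agent.Y884.SR
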